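import Mathlib

/-! Definitions for the LUR renorming of C(K), K descriptive compact (S04205). -/

set_option autoImplicit false
open Filter Topology Set

namespace Pool.Agent.Helper90_DL

/-- Network data on a space: closed sets `C n` and open sets `U n α` (`α` a set of points, used
only as an index) whose traces on `C n` are pairwise disjoint, all traces forming a network. -/
structure Net (K : Type) [TopologicalSpace K] where
  C : ℕ → Set K
  U : ℕ → Set K → Set K
  closedC : ∀ n, IsClosed (C n)
  openU : ∀ n α, IsOpen (U n α)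
  disj : ∀ n α β, α ≠ β → C n ∩ U n α ∩ U n β = ∅
  net : ∀ (x : K) (W : Set K), IsOpen W → x ∈ W →
    ∃ n α, x ∈ C n ∩ U n α ∧ closure (C n ∩ U n α) ⊆ W

/-- The network sets. -/
def Net.N {K : Type} [TopologicalSpace K] (A : Net K) (n : ℕ) (α : Set K) : Set K :=
  A.C n ∩ A.U n α

/-- The union of the open sets of level `n`. -/
def Net.O {K : Type} [TopologicalSpace K] (A : Net K) (n : ℕ) : Set K := ⋃ α, A.U n α

/-- The properties of the auxiliary open neighbourhoods `V n m β` of `N m β`. -/
structure VProp {K : Type} [TopologicalSpace K] (A : Net K) (V : ℕ → ℕ → Set K → Set K) :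
    Prop where
  openV : ∀ n m β, IsOpen (V n m β)
  sub : ∀ n m β, A.N m β ⊆ V n m β
  sep : ∀ n m β, closure (A.N m β) ∩ A.C n = ∅ → closure (V n m β) ∩ A.C n = ∅
  trace : ∀ n m β α, (closure (A.N m β) ∩ A.C n).Nonempty →
    closure (A.N m β) ∩ A.C n ⊆ A.N n α → closure (V n m β) ∩ A.C n ⊆ A.N n α

/-- `us S f` is the supremum over `S` of `max 0 (2 + f)` (zero for empty `S`). -/
noncomputable def us {K : Type} [TopologicalSpace K] (S : Set K) (f : C(K, ℝ)) : ℝ :=
  ⨆ x : S, max 0 (2 + f x)

/-- The sequence `u` is tight at `f` for the convex function `Θ`. -/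
def Tight {X : Type} [AddCommGroup X] [Module ℝ X] (Θ : X → ℝ) (f : X) (u : ℕ → X) : Prop :=
  Tendsto (fun n => (Θ f + Θ (u n)) / 2 - Θ ((1 / 2 : ℝ) • (f + u n))) atTop (𝓝 0)

/-- The sign attached to a boolean. -/
def sg (s : Bool) : ℝ := if s then 1 else -1

end Pool.Agent.Helper90_DL
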